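import Pool.Agent.helper46.T6L.SpecO

set_option autoImplicit false

namespace Pool.Agent.T6L

open Finset NumberField Pool.Agent.helper3.FT Pool.Agent.helper47.RA Pool.Agent.T5
open Pool.Agent.helper26.T5 (nn LEMB LPR LAW LP LPA HLN HPR HSQ HID HCL HGA)
open Pool.Agent.helper28.LT (rad)

/-- OCN: sorting by nontrivial classes -/
theorem OCN : OCN_stmt := by
  intro K _ _ Q B hB S hS hT
  classical
  set φ : Ideal (𝓞 K) → ClassGroup (𝓞 K) := fun a =>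
    if h : a ≠ ⊥ then ClassGroup.mk0 ⟨a, mem_nonZeroDivisors_of_ne_zero h⟩ else 1 with hφ
  have hφe : ∀ a : Ideal (𝓞 K), ∀ h : a ≠ ⊥, φ a = ClassGroup.mk0 ⟨a, mem_nonZeroDivisors_of_ne_zero h⟩ := by
    intro a h
    simp only [hφ]
    rw [dif_pos h]
  have hφm : ∀ a b : Ideal (𝓞 K), a ≠ ⊥ → b ≠ ⊥ → φ (a * b) = φ a * φ b := by
    intro a b ha hb
    have hab : a * b ≠ ⊥ := mul_ne_zero ha hb
    rw [hφe a ha, hφe b hb, hφe (a * b) hab, ← map_mul]
    rfl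
  have hφ1 : ∀ a : Ideal (𝓞 K), a ≠ ⊥ → (φ a = 1 ↔ a.IsPrincipal) := by
    intro a ha
    rw [hφe a ha, ClassGroup.mk0_eq_one_iff]
  have hφp : ∀ a : Ideal (𝓞 K), a ≠ ⊥ → ∀ n : ℕ, φ (a ^ n) = φ a ^ n := by
    intro a ha n
    induction n with
    | zero =>
      rw [pow_zero, pow_zero]
      have h1 : (1 : Ideal (𝓞 K)) ≠ ⊥ := one_ne_zero
      rw [hφ1 1 h1]
      exact ⟨⟨1, by rw [Ideal.one_eq_top, Ideal.submodule_span_eq, Ideal.span_singleton_one]⟩⟩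
    | succ n ih =>
      rw [pow_succ, hφm _ _ (pow_ne_zero n ha) ha, ih, pow_succ]
  have hbar0 : ∀ a : Ideal (𝓞 K), a ≠ ⊥ → Q.bar a ≠ ⊥ := by
    intro a ha h0
    have h1 := Q.mul_bar a
    rw [h0, Ideal.mul_bot] at h1
    have h2 : ((Ideal.absNorm a : ℕ) : 𝓞 K) = 0 := by
      have := h1.symm
      rwa [Ideal.span_singleton_eq_bot] at this
    have h3 : Ideal.absNorm a = 0 := by exact_mod_cast h2
    exact ha (Ideal.absNorm_eq_zero_iff.1 h3)
  have hbar : ∀ a : Ideal (𝓞 K), a ≠ ⊥ → φ a * φ (Q.bar a) = 1 := by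
    intro a ha
    rw [← hφm a _ ha (hbar0 a ha), hφ1 _ (mul_ne_zero ha (hbar0 a ha)), Q.mul_bar a]
    exact ⟨⟨_, rfl⟩⟩
  set C : Finset (ClassGroup (𝓞 K)) := S.image φ with hC
  have hC5 : ∀ c ∈ C, c ^ 5 = 1 ∧ c ≠ 1 := by
    intro c hc
    rw [hC, Finset.mem_image] at hc
    obtain ⟨a, ha, rfl⟩ := hc
    obtain ⟨h1, h2, h3⟩ := hS a ha
    refine ⟨?_, fun h => h3 ((hφ1 a h1).1 h)⟩
    rw [← hφp a h1 5, hφ1 _ (pow_ne_zero 5 h1)]
    exact h2
  have hfib : ∀ c ∈ C, ((S.filter (fun a => φ a = c)).card : ℝ) ≤ B := by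
    intro c _
    refine hT _ (Finset.filter_subset _ _) ?_
    intro a ha a' ha'
    rw [Finset.mem_filter] at ha ha'
    have h1 := (hS a ha.1).1
    have h2 := (hS a' ha'.1).1
    rw [← hφ1 _ (mul_ne_zero h1 (hbar0 a' h2)), hφm _ _ h1 (hbar0 a' h2), ha.2, ← ha'.2]
    exact hbar a' h2
  have hcard : (S.card : ℝ) ≤ (C.card : ℝ) * B := by
    have h1 : S.card = ∑ c ∈ C, (S.filter (fun a => φ a = c)).card :=
      Finset.card_eq_sum_card_image φ S
    rw [h1, Nat.cast_sum]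
    calc ∑ c ∈ C, ((S.filter (fun a => φ a = c)).card : ℝ) ≤ ∑ c ∈ C, B := Finset.sum_le_sum hfib
      _ = (C.card : ℝ) * B := by rw [Finset.sum_const, nsmul_eq_mul]
  have hC2 : C.card + 1 ≤ Nat.card {x : ClassGroup (𝓞 K) // x ^ 5 = 1} := by
    haveI : Fintype {x : ClassGroup (𝓞 K) // x ^ 5 = 1} := Fintype.ofFinite _
    rw [Nat.card_eq_fintype_card]
    have h1 : (1 : ClassGroup (𝓞 K)) ∉ C := fun h => (hC5 1 h).2 rfl
    rw [← Finset.card_insert_of_notMem h1]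
    have h2 : ∀ c ∈ insert (1 : ClassGroup (𝓞 K)) C, c ^ 5 = 1 := by
      intro c hc
      rcases Finset.mem_insert.1 hc with h | h
      · rw [h]; exact one_pow 5
      · exact (hC5 c h).1
    refine Finset.card_le_card_of_injOn (s := insert (1 : ClassGroup (𝓞 K)) C) (t := Finset.univ)
      (fun c => if h : c ^ 5 = 1 then (⟨c, h⟩ : {x : ClassGroup (𝓞 K) // x ^ 5 = 1}) else ⟨1, one_pow 5⟩)
      (fun c _ => Finset.mem_coe.2 (Finset.mem_univ _)) ?_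
    intro c hc c' hc' h
    simp only at h
    rw [dif_pos (h2 c hc), dif_pos (h2 c' hc')] at h
    exact congrArg Subtype.val h
  refine hcard.trans ?_
  refine mul_le_mul_of_nonneg_right ?_ hB
  have h3 : ((C.card + 1 : ℕ) : ℝ) ≤ (Nat.card {x : ClassGroup (𝓞 K) // x ^ 5 = 1} : ℝ) := by
    exact_mod_cast hC2
  rw [Nat.cast_add, Nat.cast_one] at h3
  linarith

end Pool.Agent.T6L
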